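import Mathlib

/-! Project HE (helper466), task BAD (helper25): the level decomposition, abstract form. -/

set_option autoImplicit false

namespace Pool.Agent.H25.HE

open MeasureTheory Set

theorem exists_switch (P : ℕ → Prop) (J : ℕ) (h0 : ¬ P 0) (hJ : P J) :
    ∃ j, j < J ∧ ¬ P j ∧ P (j + 1) := by
  classical
  have hex : ∃ j, P j := ⟨J, hJ⟩
  have h1 := Nat.find_spec hex
  have h2 : Nat.find hex ≠ 0 := by
    intro h
    rw [h] at h1
    exact h0 h1
  obtain ⟨k, hk⟩ := Nat.exists_eq_succ_of_ne_zero h2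
  refine ⟨k, ?_, ?_, ?_⟩
  · have := Nat.find_min' hex hJ
    omega
  · exact Nat.find_min hex (by omega)
  · rw [hk] at h1
    exact h1

theorem exp_neg_le {x : ℝ} (hx : 0 < x) : Real.exp (-x) ≤ 2 / x ^ 2 := by
  have h := Real.quadratic_le_exp_of_nonneg hx.le
  rw [Real.exp_neg, inv_eq_one_div, div_le_div_iff₀ (Real.exp_pos _) (by positivity)]
  nlinarith

theorem core {S : Finset ℂ} (w : ℂ → ℝ) (hw : ∀ z, 0 ≤ w z) {T L μ C C' c ε0 : ℝ}
    (R : ℝ → ℝ → Prop) (hT : 0 < T) (hL : 0 < L) (hμ : 0 < μ) (hC : 0 < C) (hC' : 0 < C')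
    (hc : 0 < c) (hε0 : 0 ≤ ε0) (hμL : μ * L ≤ 1) {E : Set ℝ} (hE : MeasurableSet E)
    (hE2 : E ⊆ Icc (T / 2) (4 * T)) (hvol : volume E ≤ ENNReal.ofReal (ε0 * T))
    (hreg : ∀ y0 : ℝ, 0 < y0 → volume {t : ℝ | t ∈ Icc (T / 2) (4 * T) ∧ ¬ R t y0} ≤
      ENNReal.ofReal (C' * T * Real.exp (-(c * y0 * L))))
    (hreg2 : ∀ y0 : ℝ, 2 ≤ y0 → ∀ t ∈ Icc (T / 2) (4 * T), R t y0)
    (hcnt : ∀ t y0 : ℝ, T / 2 ≤ t → t ≤ 4 * T → 0 < y0 → y0 ≤ 2 → R t y0 → μ * L ≤ 64 * y0 →
      ∑ z ∈ S with |z.im - t| ≤ μ * L, w z ≤ C * (y0 * L)) :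
    ∫ t in E, ∑ z ∈ S with |z.im - t| ≤ μ * L, w z ≤
      C / 64 * ε0 * (μ * L ^ 2) * T + 512 * C * C' * T / (c ^ 2 * (μ * L ^ 2)) := by
  have hΔ : 0 < μ * L := mul_pos hμ hL
  set y : ℕ → ℝ := fun j => 2 ^ j * (μ * L / 64) with hy
  have hypos : ∀ j, 0 < y j := fun j => by
    simp only [hy]
    positivity
  have hysucc : ∀ j, y (j + 1) = 2 * y j := fun j => by
    simp only [hy, pow_succ]
    ring
  have hyge : ∀ j, μ * L ≤ 64 * y j := fun j => by
    have h1 : (1 : ℝ) ≤ 2 ^ j := one_le_pow₀ (by norm_num)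
    have h2 : 1 * (μ * L / 64) ≤ 2 ^ j * (μ * L / 64) :=
      mul_le_mul_of_nonneg_right h1 (by positivity)
    simp only [hy]
    linarith
  obtain ⟨J, hJ⟩ := pow_unbounded_of_one_lt (2 / (μ * L / 64)) (one_lt_two)
  have hyJ : 2 ≤ y J := by
    have h1 : 2 < 2 ^ J * (μ * L / 64) := (div_lt_iff₀ (by positivity)).1 hJ
    exact h1.le
  -- the exceptional sets
  set Bd : ℕ → Set ℝ := fun j => toMeasurable volume {t : ℝ | t ∈ Icc (T / 2) (4 * T) ∧ ¬ R t (y j)}
    with hBd
  have hBm : ∀ j, MeasurableSet (Bd j) := fun j => measurableSet_toMeasurable _ _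
  have hBsub : ∀ j, {t : ℝ | t ∈ Icc (T / 2) (4 * T) ∧ ¬ R t (y j)} ⊆ Bd j :=
    fun j => subset_toMeasurable _ _
  have hBv : ∀ j, volume (Bd j) ≤ ENNReal.ofReal (C' * T * Real.exp (-(c * y j * L))) := by
    intro j
    simp only [hBd]
    rw [measure_toMeasurable]
    exact hreg (y j) (hypos j)
  have hEfin : volume E ≠ ⊤ := (hvol.trans_lt ENNReal.ofReal_lt_top).ne
  -- the pointwise bound
  have hpt : ∀ t ∈ E, ∑ z ∈ S with |z.im - t| ≤ μ * L, w z ≤
      C / 64 * (μ * L ^ 2) + ∑ j ∈ Finset.range J, 2 * C * (y j * L) * (Bd j).indicator 1 t := by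
    intro t ht
    have htI := hE2 ht
    have hnn : ∀ j ∈ Finset.range J, 0 ≤ 2 * C * (y j * L) * (Bd j).indicator (1 : ℝ → ℝ) t := by
      intro j _
      have h1 : 0 ≤ (Bd j).indicator (1 : ℝ → ℝ) t := indicator_nonneg (fun _ _ => by simp) t
      have h2 := hypos j
      positivity
    by_cases h0 : R t (y 0)
    · have h1 := hcnt t (y 0) htI.1 htI.2 (hypos 0) (by simp only [hy]; linarith) h0 (hyge 0)
      have h2 : C * (y 0 * L) = C / 64 * (μ * L ^ 2) := by
        simp only [hy]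
        ring
      have h3 := Finset.sum_nonneg hnn
      linarith
    · obtain ⟨j, hj, hj1, hj2⟩ := exists_switch (fun j => R t (y j)) J h0 (hreg2 _ hyJ t htI)
      have h4 : ∑ z ∈ S with |z.im - t| ≤ μ * L, w z ≤ C * (y (j + 1) * L) := by
        rcases le_total (y (j + 1)) 2 with h | h
        · exact hcnt t (y (j + 1)) htI.1 htI.2 (hypos _) h hj2 (hyge _)
        · refine (hcnt t 2 htI.1 htI.2 two_pos le_rfl (hreg2 2 le_rfl t htI) (by linarith)).trans ?_
          have h5 : 2 * L ≤ y (j + 1) * L := mul_le_mul_of_nonneg_right h hL.le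
          exact mul_le_mul_of_nonneg_left h5 hC.le
      have h5 : (Bd j).indicator (1 : ℝ → ℝ) t = 1 := by
        rw [indicator_of_mem (hBsub j ⟨htI, hj1⟩)]
        rfl
      have h6 := Finset.single_le_sum hnn (Finset.mem_range.2 hj)
      rw [h5, mul_one] at h6
      have h7 : C * (y (j + 1) * L) = 2 * C * (y j * L) := by
        rw [hysucc]
        ring
      have h8 : 0 ≤ C / 64 * (μ * L ^ 2) := by positivity
      linarith
  -- integrability
  have hfI : IntegrableOn (fun t => ∑ z ∈ S with |z.im - t| ≤ μ * L, w z) E volume := by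
    have e : (fun t => ∑ z ∈ S with |z.im - t| ≤ μ * L, w z) =
        fun t => ∑ z ∈ S, if |z.im - t| ≤ μ * L then w z else 0 := by
      funext t
      rw [Finset.sum_filter]
    rw [e]
    refine Measure.integrableOn_of_bounded (M := ∑ z ∈ S, w z) hEfin ?_ ?_
    · refine (Finset.measurable_sum S fun z _ => ?_).aestronglyMeasurable
      refine Measurable.ite ?_ measurable_const measurable_const
      exact measurableSet_le (by fun_prop) measurable_const
    · refine Filter.Eventually.of_forall fun t => ?_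
      rw [Real.norm_eq_abs, abs_of_nonneg (Finset.sum_nonneg fun z _ => by split_ifs; exacts [hw z, le_rfl])]
      refine Finset.sum_le_sum fun z _ => ?_
      split_ifs
      · exact le_rfl
      · exact hw z
  have hindI : ∀ j, IntegrableOn (fun t => (Bd j).indicator (1 : ℝ → ℝ) t) E volume := by
    intro j
    have h1 : IntegrableOn (fun _ : ℝ => (1 : ℝ)) E volume := integrableOn_const hEfin
    exact h1.indicator (hBm j)
  have hgI : IntegrableOn (fun t => C / 64 * (μ * L ^ 2) +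
      ∑ j ∈ Finset.range J, 2 * C * (y j * L) * (Bd j).indicator (1 : ℝ → ℝ) t) E volume := by
    refine (integrableOn_const hEfin).add ?_
    exact integrable_finsetSum _ fun j _ => (hindI j).const_mul _
  have hmono := setIntegral_mono_on hfI hgI hE hpt
  refine hmono.trans ?_
  have hcI : Integrable (fun _ : ℝ => C / 64 * (μ * L ^ 2)) (volume.restrict E) :=
    integrableOn_const hEfin
  have hsI : Integrable (fun t => ∑ j ∈ Finset.range J,
      2 * C * (y j * L) * (Bd j).indicator (1 : ℝ → ℝ) t) (volume.restrict E) :=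
    integrable_finsetSum _ fun j _ => (hindI j).const_mul _
  rw [integral_add hcI hsI, integral_finsetSum _ fun j _ => (hindI j).const_mul _]
  have hA : 0 < μ * L ^ 2 := by positivity
  have hEr : volume.real E ≤ ε0 * T := ENNReal.toReal_le_of_le_ofReal (by positivity) hvol
  have hfirst : ∫ _ in E, C / 64 * (μ * L ^ 2) ≤ C / 64 * ε0 * (μ * L ^ 2) * T := by
    rw [setIntegral_const, smul_eq_mul]
    calc volume.real E * (C / 64 * (μ * L ^ 2)) ≤ (ε0 * T) * (C / 64 * (μ * L ^ 2)) :=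
          mul_le_mul_of_nonneg_right hEr (by positivity)
      _ = C / 64 * ε0 * (μ * L ^ 2) * T := by ring
  have hsecond : ∀ j ∈ Finset.range J,
      ∫ t in E, 2 * C * (y j * L) * (Bd j).indicator (1 : ℝ → ℝ) t ≤
        256 * C * C' * T / (c ^ 2 * (μ * L ^ 2)) * (1 / 2) ^ j := by
    intro j _
    rw [integral_const_mul]
    have h1 : ∫ t in E, (Bd j).indicator (1 : ℝ → ℝ) t ≤ C' * T * Real.exp (-(c * y j * L)) := by
      rw [integral_indicator_one (hBm j)]
      refine ENNReal.toReal_le_of_le_ofReal (by positivity) ?_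
      exact (Measure.restrict_apply_le _ _).trans (hBv j)
    have h2 : Real.exp (-(c * y j * L)) ≤ 2 / (c * y j * L) ^ 2 :=
      exp_neg_le (mul_pos (mul_pos hc (hypos j)) hL)
    have hyj := hypos j
    have h3 : ∫ t in E, (Bd j).indicator (1 : ℝ → ℝ) t ≤ C' * T * (2 / (c * y j * L) ^ 2) :=
      h1.trans (mul_le_mul_of_nonneg_left h2 (by positivity))
    calc 2 * C * (y j * L) * ∫ t in E, (Bd j).indicator (1 : ℝ → ℝ) t
        ≤ 2 * C * (y j * L) * (C' * T * (2 / (c * y j * L) ^ 2)) :=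
          mul_le_mul_of_nonneg_left h3 (by positivity)
      _ = 256 * C * C' * T / (c ^ 2 * (μ * L ^ 2)) * (1 / 2) ^ j := by
          simp only [hy]
          rw [one_div, inv_pow]
          field_simp
          ring
  have hsum : ∑ j ∈ Finset.range J, ∫ t in E, 2 * C * (y j * L) * (Bd j).indicator (1 : ℝ → ℝ) t ≤
      512 * C * C' * T / (c ^ 2 * (μ * L ^ 2)) := by
    refine (Finset.sum_le_sum hsecond).trans ?_
    rw [← Finset.mul_sum]
    have hg : ∑ j ∈ Finset.range J, (1 / 2 : ℝ) ^ j ≤ 2 := by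
      have := geom_sum_eq (show (1 / 2 : ℝ) ≠ 1 by norm_num) J
      rw [this]
      have h5 : (0 : ℝ) < (1 / 2) ^ J := by positivity
      rw [div_le_iff_of_neg (by norm_num)]
      linarith
    calc 256 * C * C' * T / (c ^ 2 * (μ * L ^ 2)) * ∑ j ∈ Finset.range J, (1 / 2 : ℝ) ^ j
        ≤ 256 * C * C' * T / (c ^ 2 * (μ * L ^ 2)) * 2 :=
          mul_le_mul_of_nonneg_left hg (by positivity)
      _ = 512 * C * C' * T / (c ^ 2 * (μ * L ^ 2)) := by ring
  exact add_le_add hfirst hsum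

end Pool.Agent.H25.HE
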