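import Pool.Agent.H466.HE.SC
import Pool.Agent.H25.HE.BadCore

/-! Project HE (helper466), task BAD (helper25): few zeros near small sets of ordinates. -/

set_option autoImplicit false

namespace Pool.Agent.H25.HE

open Complex MeasureTheory Set Filter Topology
open Pool.Agent.H466.HF Pool.Agent.H466.LD Pool.Agent.H466.HP Pool.Agent.H466.HN Pool.Agent.H466.HD
open Pool.Agent.H466.HE

theorem bad (h1 : S_CNTg) (h2 : S_REGX) : S_BAD := by
  intro ε hε
  obtain ⟨κ, C, A0, T0, δ, hκ, hC, hA0, hT0, hδ, hcnt⟩ := h1 128 (by norm_num)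
  obtain ⟨C', c, T1, hC', hc, hT1, hreg⟩ := h2 64 κ (by norm_num) hκ
  refine ⟨32 * ε / C, max A0 (1 + 1024 * C * C' / (c ^ 2 * ε)), min δ 1, max T0 T1,
    by positivity, hA0.trans (le_max_left _ _), lt_min hδ one_pos, hT0.trans (le_max_left _ _), ?_⟩
  intro T μ hT hμ hA hμL E hE hE2 hvol S hS
  have hT0' : T0 ≤ T := (le_max_left _ _).trans hT
  have hT1' : T1 ≤ T := (le_max_right _ _).trans hT
  have hTpos : 0 < T := by linarith
  have hL : 0 < Real.log T := Real.log_pos (by linarith)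
  have hA0' : A0 ≤ μ * Real.log T ^ 2 := (le_max_left _ _).trans hA
  have hA1' : 1 + 1024 * C * C' / (c ^ 2 * ε) ≤ μ * Real.log T ^ 2 := (le_max_right _ _).trans hA
  have hδ' : μ * Real.log T ≤ δ := hμL.trans (min_le_left _ _)
  have h1' : μ * Real.log T ≤ 1 := hμL.trans (min_le_right _ _)
  obtain ⟨hr1, hr2⟩ := hreg T hT1'
  have key := core (S := S) (fun z => (analyticOrderNatAt (LL gk (-μ)) z : ℝ))
    (fun z => Nat.cast_nonneg _) (T := T) (L := Real.log T) (μ := μ) (C := C) (C' := C') (c := c)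
    (ε0 := 32 * ε / C) (fun t y0 => Reg1 t y0 64 κ (Real.log T)) hTpos hL hμ hC hC' hc
    (by positivity) h1' hE hE2 hvol hr1 hr2 (by
      intro t y0 ht1 ht2 hy0 hy2 hR hμy
      refine hcnt T t y0 μ hT0' ht1 ht2 hy0 hy2 hR hμ hA0' hδ' hμy
        (S.filter fun z => |z.im - t| ≤ μ * Real.log T) ?_
      intro z hz
      rw [Finset.mem_filter] at hz
      have h3 := hS z hz.1
      exact ⟨h3.1, hz.2, h3.2.trans (by linarith)⟩)
  refine key.trans ?_
  have hApos : 0 < μ * Real.log T ^ 2 := by positivity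
  have hfrac : 0 ≤ 1024 * C * C' / (c ^ 2 * ε) := by positivity
  have hAge : 1 ≤ μ * Real.log T ^ 2 := by linarith
  generalize μ * Real.log T ^ 2 = A at *
  have e1 : C / 64 * (32 * ε / C) * A * T = ε / 2 * A * T := by
    field_simp
    norm_num
  have e2 : 512 * C * C' * T / (c ^ 2 * A) ≤ ε / 2 * A * T := by
    rw [div_le_iff₀ (by positivity)]
    have h3 : 1024 * C * C' / (c ^ 2 * ε) ≤ A * A := by nlinarith
    rw [div_le_iff₀ (by positivity)] at h3
    have h4 := mul_le_mul_of_nonneg_right h3 hTpos.le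
    have h5 : ε / 2 * A * T * (c ^ 2 * A) = A * A * (c ^ 2 * ε) * T / 2 := by ring
    rw [h5]
    linarith
  rw [e1]
  linarith

end Pool.Agent.H25.HE
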